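import Pool.Agent.W346.HT.Path

/-!
HT-RTASM, part 2: from the state sum to the iterated integral.
-/

set_option autoImplicit false

namespace Pool.Agent.W346.HT

open Filter Finset Topology MeasureTheory Pool.Agent.W711.HT
open Pool.Agent.H550R3.Jones
open scoped Real

lemma vN_ne (N : ℕ) : vN N ≠ 0 := Complex.exp_ne_zero _

lemma vN_zpow (N : ℕ) (n : ℤ) :
    vN N ^ n = Complex.exp (((π * n / N : ℝ) : ℂ) * Complex.I) := by
  unfold vN
  rw [← Complex.exp_int_mul]
  congr 1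
  push_cast
  ring

lemma norm_vN_zpow (N : ℕ) (n : ℤ) : ‖vN N ^ n‖ = 1 := by
  rw [vN_zpow, Complex.norm_exp_ofReal_mul_I]

lemma br_vN (N : ℕ) (n : ℤ) : br (vN N) n = ((2 * Real.sin (π * n / N) : ℝ) : ℂ) * Complex.I := by
  unfold br
  rw [vN_zpow, vN_zpow, Complex.exp_mul_I, Complex.exp_mul_I]
  have : π * ((-n : ℤ) : ℝ) / N = -(π * n / N) := by push_cast; ring
  rw [this]
  push_cast
  rw [Complex.cos_neg, Complex.sin_neg]
  ring

lemma br_add {N : ℕ} (hN : 0 < N) (n : ℤ) : br (vN N) ((N : ℤ) + n) = -br (vN N) n := by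
  have hN0 : (N : ℝ) ≠ 0 := by exact_mod_cast hN.ne'
  rw [br_vN, br_vN]
  have : π * (((N : ℤ) + n : ℤ) : ℝ) / N = π * n / N + π := by
    push_cast
    field_simp
    ring
  rw [this, Real.sin_add_pi]
  push_cast
  ring

lemma br_sub {N : ℕ} (hN : 0 < N) (n : ℤ) : br (vN N) ((N : ℤ) - n) = br (vN N) n := by
  have hN0 : (N : ℝ) ≠ 0 := by exact_mod_cast hN.ne'
  rw [br_vN, br_vN]
  have : π * (((N : ℤ) - n : ℤ) : ℝ) / N = π - π * n / N := by
    push_cast
    field_simp
  rw [this, Real.sin_pi_sub]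

lemma Sd_eq (N d : ℕ) : Sd N d = ∏ k ∈ range d, (2 * Real.sin (π * ((k + 1 : ℕ) : ℝ) / N)) := by
  unfold Sd
  refine prod_congr rfl fun k _ => ?_
  push_cast
  ring

lemma Sd_pos {N d : ℕ} (hd : d < N) : 0 < Sd N d := by
  rw [Sd_eq]
  refine prod_pos fun k hk => ?_
  rw [mem_range] at hk
  have := GapVol.sin_pos_of (M := N) (j := k + 1) (by omega) (by omega)
  positivity

lemma Sd_full {N : ℕ} (hN : 0 < N) : Sd N (N - 1) = N := by
  rw [Sd_eq]
  exact GapVol.prod_sin N hN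

lemma Sd_mul {N n : ℕ} (hn : n < N) : Sd N n * Sd N (N - 1 - n) = N := by
  have hN : 0 < N := by omega
  rw [← Sd_full hN, Sd_eq, Sd_eq, Sd_eq]
  obtain ⟨d, hd⟩ : ∃ d, N - 1 = n + d := ⟨N - 1 - n, by omega⟩
  rw [hd, prod_range_add, show n + d - n = d by omega]
  congr 1
  rw [← prod_range_reflect]
  refine prod_congr rfl fun j hj => ?_
  rw [mem_range] at hj
  have h1 := GapVol.sin_symm (M := N) (j := n + j + 1) (by omega) hN
  have h2 : N - (n + j + 1) = d - 1 - j + 1 := by omega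
  rw [h2] at h1
  rw [h1]

lemma wn_vN {N : ℕ} (hN : 0 < N) (n : ℕ) : wn N (vN N) n = (Sd N n : ℂ) ^ 4 := by
  unfold wn
  rw [Sd_eq, Complex.ofReal_prod, ← prod_pow]
  refine prod_congr rfl fun l _ => ?_
  rw [br_add hN, br_sub hN, br_vN]
  have hI : Complex.I ^ 4 = 1 := Complex.I_pow_four
  push_cast
  linear_combination (2 * Complex.sin (π * (l + 1) / N)) ^ 4 * hI

lemma wn_cont (N n : ℕ) : ContinuousAt (fun v => wn N v n) (vN N) := by
  unfold wn
  refine tendsto_finsetProd _ fun l _ => ?_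
  have h1 := Pool.Agent.H756R3.J.br_cont (vN_ne N) ((N : ℤ) + (l + 1 : ℕ))
  have h2 := Pool.Agent.H756R3.J.br_cont (vN_ne N) ((N : ℤ) - (l + 1 : ℕ))
  have h3 := Pool.Agent.H756R3.J.br_cont (vN_ne N) (((l + 1 : ℕ) : ℤ))
  show ContinuousAt (fun v => -(br v ((N : ℤ) + (l + 1 : ℕ)) * br v ((N : ℤ) - (l + 1 : ℕ)) *
    br v ((l + 1 : ℕ) : ℤ) ^ 2)) (vN N)
  fun_prop

/-- the state of the induction -/
def St (N : ℕ) : Bool → List ℤ → (ℂ → ℕ → ℂ) → Prop
  | true, L, c => ∃ K : ℂ, ‖K‖ = ((N : ℝ) ^ 2 / (2 * π)) ^ L.length ∧ ∀ l < N,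
      Tendsto (fun v => c v l) (𝓝[≠] (vN N)) (𝓝 (K * (-1) ^ l / (Sd N l : ℂ) ^ 4 * WW N L l))
  | false, L, c => ∃ K : ℂ, ‖K‖ * (N : ℝ) ^ 2 = ((N : ℝ) ^ 2 / (2 * π)) ^ L.length ∧ ∀ n < N,
      Tendsto (fun v => c v n) (𝓝[≠] (vN N)) (𝓝 (K * (-1) ^ (N - 1 - n) * WW N L (N - 1 - n)))

lemma norm_two_pi : ‖(2 * π : ℂ)‖ = 2 * π := by
  rw [norm_mul, Complex.norm_real, Real.norm_eq_abs, abs_of_pos Real.pi_pos]
  norm_num

lemma step_true (hG : S_GDL) {N : ℕ} (hN : 2 ≤ N) (a : ℤ) (L : List ℤ) (c : ℂ → ℕ → ℂ)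
    (h : St N true L c) :
    St N false (a :: L) (fun v n => ∑ i ∈ range (n + 1), gd v a i n * c v i) := by
  obtain ⟨K, hK, hc⟩ := h
  obtain ⟨ca, hca, hg⟩ := hG a N hN
  have hN0 : 0 < N := by omega
  have hp := Real.pi_pos
  refine ⟨K * ca / (2 * π), ?_, fun n hn => ?_⟩
  · rw [norm_div, norm_mul, hK, hca, norm_two_pi, List.length_cons, pow_succ]
    ring
  · have h1 : Tendsto (fun v => ∑ i ∈ range (n + 1), gd v a i n * c v i) (𝓝[≠] (vN N))
        (𝓝 (∑ i ∈ range (n + 1), (ca * (-1) ^ (N - 1 - n + i) / (2 * π) * GG N a (N - 1 - n) i) *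
          (K * (-1) ^ i / (Sd N i : ℂ) ^ 4 * WW N L i))) := by
      refine tendsto_finsetSum _ fun i hi => ?_
      rw [mem_range] at hi
      exact (hg i n (by omega) hn).mul (hc i (by omega))
    have h2 : ∑ i ∈ range (n + 1), (ca * (-1) ^ (N - 1 - n + i) / (2 * π) * GG N a (N - 1 - n) i) *
          (K * (-1) ^ i / (Sd N i : ℂ) ^ 4 * WW N L i) =
        K * ca / (2 * π) * (-1) ^ (N - 1 - n) * WW N (a :: L) (N - 1 - n) := by
      rw [WW_cons hN0, mul_sum]
      have h3 : ∑ d ∈ range N, K * ca / (2 * π) * (-1) ^ (N - 1 - n) *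
            (WW N L d / (Sd N d : ℂ) ^ 4 * GG N a (N - 1 - n) d) =
          ∑ d ∈ range (n + 1), K * ca / (2 * π) * (-1) ^ (N - 1 - n) *
            (WW N L d / (Sd N d : ℂ) ^ 4 * GG N a (N - 1 - n) d) := by
        symm
        refine sum_subset (range_subset_range.2 (by omega)) fun d hd hd' => ?_
        rw [mem_range] at hd hd'
        rw [GG_zero hn (by omega), mul_zero, mul_zero]
      rw [h3]
      refine sum_congr rfl fun i _ => ?_
      have h4 : ((-1 : ℂ)) ^ i * (-1) ^ i = 1 := by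
        rw [← mul_pow]
        norm_num
      rw [pow_add]
      linear_combination (ca * (-1) ^ (N - 1 - n) / (2 * π) * GG N a (N - 1 - n) i * K /
        (Sd N i : ℂ) ^ 4 * WW N L i) * h4
    rw [h2] at h1
    exact h1

lemma step_false (hG : S_GDL) {N : ℕ} (hN : 2 ≤ N) (b : ℤ) (L : List ℤ) (c : ℂ → ℕ → ℂ)
    (h : St N false L c) :
    St N true (b :: L) (fun v i => ∑ n ∈ Ico i N, gd v b i n * (wn N v n / wn N v i) * c v n) := by
  obtain ⟨K, hK, hc⟩ := h
  obtain ⟨cb, hcb, hg⟩ := hG b N hN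
  have hN0 : 0 < N := by omega
  have hNr : (0 : ℝ) < N := by exact_mod_cast hN0
  have hp := Real.pi_pos
  refine ⟨K * cb * (N : ℂ) ^ 4 / (2 * π), ?_, fun i hi => ?_⟩
  · rw [norm_div, norm_mul, norm_mul, hcb, norm_two_pi, List.length_cons,
      pow_succ ((N : ℝ) ^ 2 / (2 * π)), ← hK, norm_pow, Complex.norm_natCast]
    ring
  · have hSi : (Sd N i : ℂ) ≠ 0 := by
      have := (Sd_pos hi).ne'
      exact_mod_cast this
    have h1 : Tendsto (fun v => ∑ n ∈ Ico i N, gd v b i n * (wn N v n / wn N v i) * c v n)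
        (𝓝[≠] (vN N))
        (𝓝 (∑ n ∈ Ico i N, (cb * (-1) ^ (N - 1 - n + i) / (2 * π) * GG N b (N - 1 - n) i) *
          ((Sd N n : ℂ) ^ 4 / (Sd N i : ℂ) ^ 4) *
          (K * (-1) ^ (N - 1 - n) * WW N L (N - 1 - n)))) := by
      refine tendsto_finsetSum _ fun n hn => ?_
      rw [mem_Ico] at hn
      refine ((hg i n hn.1 hn.2).mul ?_).mul (hc n hn.2)
      have hw : ∀ m : ℕ, Tendsto (fun v => wn N v m) (𝓝[≠] (vN N)) (𝓝 ((Sd N m : ℂ) ^ 4)) := by
        intro m
        rw [← wn_vN hN0]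
        exact (wn_cont N m).tendsto.mono_left nhdsWithin_le_nhds
      exact (hw n).div (hw i) (pow_ne_zero 4 hSi)
    have h2 : ∑ n ∈ Ico i N, (cb * (-1) ^ (N - 1 - n + i) / (2 * π) * GG N b (N - 1 - n) i) *
          ((Sd N n : ℂ) ^ 4 / (Sd N i : ℂ) ^ 4) *
          (K * (-1) ^ (N - 1 - n) * WW N L (N - 1 - n)) =
        K * cb * (N : ℂ) ^ 4 / (2 * π) * (-1) ^ i / (Sd N i : ℂ) ^ 4 * WW N (b :: L) i := by
      rw [WW_cons hN0, ← sum_range_reflect, mul_sum]
      have h3 : ∑ n ∈ range N, K * cb * (N : ℂ) ^ 4 / (2 * π) * (-1) ^ i / (Sd N i : ℂ) ^ 4 *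
            (WW N L (N - 1 - n) / (Sd N (N - 1 - n) : ℂ) ^ 4 * GG N b i (N - 1 - n)) =
          ∑ n ∈ Ico i N, K * cb * (N : ℂ) ^ 4 / (2 * π) * (-1) ^ i / (Sd N i : ℂ) ^ 4 *
            (WW N L (N - 1 - n) / (Sd N (N - 1 - n) : ℂ) ^ 4 * GG N b i (N - 1 - n)) := by
        symm
        refine sum_subset (fun n hn => ?_) fun n hn hn' => ?_
        · rw [mem_Ico] at hn
          exact mem_range.2 hn.2
        · rw [mem_range] at hn
          rw [mem_Ico] at hn'
          rw [GG_comm, GG_zero hn (by omega), mul_zero, mul_zero]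
      rw [h3]
      refine sum_congr rfl fun n hn => ?_
      rw [mem_Ico] at hn
      have h4 : ((-1 : ℂ)) ^ (N - 1 - n) * (-1) ^ (N - 1 - n) = 1 := by
        rw [← mul_pow]
        norm_num
      have h5 : (Sd N n : ℂ) * (Sd N (N - 1 - n) : ℂ) = N := by
        have := Sd_mul hn.2
        exact_mod_cast this
      have h6 : (Sd N (N - 1 - n) : ℂ) ≠ 0 := by
        have := (Sd_pos (N := N) (d := N - 1 - n) (by omega)).ne'
        exact_mod_cast this
      rw [GG_comm N b i, pow_add, ← h5]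
      field_simp
      linear_combination (cb * GG N b (N - 1 - n) i * (Sd N n : ℂ) ^ 4 * K *
        WW N L (N - 1 - n)) * h4
    rw [h2] at h1
    exact h1

/-- the flag after processing a list -/
def flg : Bool → List ℕ → Bool
  | b, [] => b
  | b, _ :: l => flg (!b) l

lemma flg_eq (l : List ℕ) : ∀ b, flg b l = if l.length % 2 = 0 then b else !b := by
  induction l with
  | nil => intro b; rfl
  | cons a l ih =>
    intro b
    show flg (!b) l = _
    rw [ih, List.length_cons]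
    by_cases h : l.length % 2 = 0
    · rw [if_pos h, if_neg (by omega)]
    · rw [if_neg h, if_pos (by omega), Bool.not_not]

lemma sgl_len (l : List ℕ) : ∀ b, (sgl b l).length = l.length := by
  induction l with
  | nil => intro b; rfl
  | cons a l ih =>
    intro b
    show (sgl (!b) l ++ [if b then (a : ℤ) else -(a : ℤ)]).length = _
    rw [List.length_append, ih]
    rfl

lemma sv_St (hG : S_GDL) {N : ℕ} (hN : 2 ≤ N) (l : List ℕ) : ∀ (b : Bool) (L : List ℤ)
    (c : ℂ → ℕ → ℂ), St N b L c → St N (flg b l) (sgl b l ++ L) (fun v => sv N v b l (c v)) := by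
  induction l with
  | nil =>
    intro b L c h
    cases b <;> exact h
  | cons a l ih =>
    intro b L c h
    cases b with
    | true =>
      have h1 := ih false (a :: L) _ (step_true hG hN a L c h)
      have e1 : sgl true (a :: l) ++ L = sgl false l ++ ((a : ℤ) :: L) := by
        show (sgl (!true) l ++ [if (true : Bool) = true then (a : ℤ) else -(a : ℤ)]) ++ L = _
        rw [List.append_assoc]
        rfl
      rw [e1]
      exact h1
    | false =>
      have h1 := ih true (-(a : ℤ) :: L) _ (step_false hG hN (-(a : ℤ)) L c h)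
      have e1 : sgl false (a :: l) ++ L = sgl true l ++ (-(a : ℤ) :: L) := by
        show (sgl (!false) l ++ [if (false : Bool) = true then (a : ℤ) else -(a : ℤ)]) ++ L = _
        rw [List.append_assoc]
        rfl
      rw [e1]
      exact h1

lemma St_start (N : ℕ) : St N true [] (fun _ i => if i = 0 then 1 else 0) := by
  refine ⟨1, by simp, fun l _ => ?_⟩
  have : (1 : ℂ) * (-1) ^ l / (Sd N l : ℂ) ^ 4 * WW N [] l = if l = 0 then 1 else 0 := by
    by_cases h : l = 0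
    · subst h
      simp [WW, Sd]
    · simp [WW, h]
  rw [this]
  exact tendsto_const_nhds

/-- the closure coefficients -/
lemma qn_lim {N : ℕ} (hN : 2 ≤ N) : ∃ Q : ℂ, ‖Q‖ = (N : ℝ) ^ 2 ∧ ∀ n < N,
    Tendsto (fun v => qn N v n) (𝓝[≠] (vN N)) (𝓝 (if n = N - 1 then Q else 0)) := by
  have hN0 : 0 < N := by omega
  have hpc : ∀ n : ℕ, ContinuousAt (fun v => ∏ l ∈ range n, br v ((N : ℤ) + (l + 1 : ℕ)) *
      br v ((N : ℤ) - (l + 1 : ℕ))) (vN N) := by
    intro n
    refine tendsto_finsetProd _ fun l _ => ?_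
    exact (Pool.Agent.H756R3.J.br_cont (vN_ne N) _).mul (Pool.Agent.H756R3.J.br_cont (vN_ne N) _)
  refine ⟨(-1) ^ (N - 1) * ∏ l ∈ range (N - 1), br (vN N) ((N : ℤ) + (l + 1 : ℕ)) *
      br (vN N) ((N : ℤ) - (l + 1 : ℕ)), ?_, fun n hn => ?_⟩
  · rw [norm_mul, norm_pow, norm_neg, norm_one, one_pow, one_mul, norm_prod]
    have h1 : ∀ l ∈ range (N - 1), ‖br (vN N) ((N : ℤ) + (l + 1 : ℕ)) *
        br (vN N) ((N : ℤ) - (l + 1 : ℕ))‖ = (2 * Real.sin (π * ((l + 1 : ℕ) : ℝ) / N)) ^ 2 := by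
      intro l hl
      rw [mem_range] at hl
      rw [br_add hN0, br_sub hN0, norm_mul, norm_neg, br_vN, norm_mul, Complex.norm_I, mul_one,
        Complex.norm_real, Real.norm_eq_abs, abs_of_pos]
      · push_cast
        ring
      · have := GapVol.sin_pos_of (M := N) (j := l + 1) (by omega) (by omega)
        push_cast at this ⊢
        positivity
    rw [prod_congr rfl h1, prod_pow, GapVol.prod_sin N hN0]
  · by_cases h : n = N - 1
    · rw [if_pos h]
      subst h
      have h2 : ∀ᶠ v in 𝓝[≠] (vN N), (-1) ^ (N - 1) * ∏ l ∈ range (N - 1),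
          br v ((N : ℤ) + (l + 1 : ℕ)) * br v ((N : ℤ) - (l + 1 : ℕ)) = qn N v (N - 1) := by
        have h3 : ∀ᶠ v in 𝓝[≠] (vN N), br v (N : ℤ) ≠ 0 := EvenVol.TE.brN_ne hN
        filter_upwards [h3] with v hv
        unfold qn
        rw [show N - 1 + 1 = N by omega]
        field_simp
      refine Tendsto.congr' h2 ?_
      exact ((continuousAt_const.mul (hpc _)).tendsto).mono_left nhdsWithin_le_nhds
    · rw [if_neg h]
      have hb0 : br (vN N) ((n + 1 : ℕ) : ℤ) ≠ 0 := by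
        rw [br_vN]
        have := GapVol.sin_pos_of (M := N) (j := n + 1) (by omega) (by omega)
        refine mul_ne_zero ?_ Complex.I_ne_zero
        rw [Complex.ofReal_ne_zero, Int.cast_natCast]
        exact (mul_pos two_pos this).ne'
      have hbN : br (vN N) (N : ℤ) = 0 := by
        have := br_add hN0 0
        rw [add_zero] at this
        rw [this, br_vN]
        simp
      have h4 : ContinuousAt (fun v => qn N v n) (vN N) := by
        have h5 := Pool.Agent.H756R3.J.br_cont (vN_ne N) (N : ℤ)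
        have h6 := Pool.Agent.H756R3.J.br_cont (vN_ne N) ((n + 1 : ℕ) : ℤ)
        exact ((continuousAt_const.mul h5).mul (hpc n)).div h6 hb0
      have h7 : qn N (vN N) n = 0 := by
        unfold qn
        rw [hbN]
        simp
      have h8 := h4.tendsto.mono_left (nhdsWithin_le_nhds (s := {vN N}ᶜ))
      rw [h7] at h8
      exact h8

lemma WW_JJ (N : ℕ) (L : List ℤ) (hL : L ≠ []) : WW N L 0 = JJ L N := by
  cases L with
  | nil => exact absurd rfl hL
  | cons a L =>
    show upp (1 / N) (fun ψ => Ea a N ψ * XX L N ψ * Rp N 0 ψ * kr N ψ) =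
      upp (1 / N) (fun ψ => Ea a N ψ * XX L N ψ * kr N ψ)
    congr 1
    funext ψ
    simp [Rp]

theorem asm (hA : S_ALG) (hG : S_GDL) (hC : S_CONT) : S_RT := by
  intro as has N hN
  refine ⟨hC as N, ?_⟩
  have hN0 : 0 < N := by omega
  have hNr : (0 : ℝ) < N := by exact_mod_cast hN0
  have hp := Real.pi_pos
  have hnorm : ‖vN N‖ = 1 := by
    have := norm_vN_zpow N 1
    rwa [zpow_one] at this
  -- the filter
  have hne : (𝓝[{v : ℂ | ‖v‖ ≠ 1}] (vN N)).NeBot := by
    rw [← mem_closure_iff_nhdsWithin_neBot, Metric.mem_closure_iff]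
    intro ε hε
    refine ⟨((1 + ε / 2 : ℝ) : ℂ) * vN N, ?_, ?_⟩
    · simp only [Set.mem_ofPred_eq, norm_mul, hnorm, mul_one, Complex.norm_real, Real.norm_eq_abs]
      rw [abs_of_pos (by linarith)]
      linarith
    · rw [dist_eq_norm]
      have : vN N - ((1 + ε / 2 : ℝ) : ℂ) * vN N = ((-(ε / 2) : ℝ) : ℂ) * vN N := by
        push_cast
        ring
      rw [this, norm_mul, hnorm, mul_one, Complex.norm_real, Real.norm_eq_abs, abs_neg,
        abs_of_pos (by linarith)]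
      linarith
  have hle : 𝓝[{v : ℂ | ‖v‖ ≠ 1}] (vN N) ≤ 𝓝[≠] (vN N) := by
    apply nhdsWithin_mono
    intro v hv hc
    rw [Set.mem_singleton_iff] at hc
    apply hv
    rw [hc, hnorm]
  -- the state sum
  have hst := sv_St hG hN as true [] _ (St_start N)
  rw [List.append_nil, flg_eq] at hst
  have hLne : sgl true as ≠ [] := by
    intro h
    apply has
    rw [← List.length_eq_zero_iff, ← sgl_len as true, h]
    rfl
  have hval : ∃ W : ℂ, ‖W‖ = ((N : ℝ) ^ 2 / (2 * π)) ^ as.length * ‖JJ (sgl true as) N‖ ∧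
      Tendsto (fun v => if as.length % 2 = 0 then sv N v true as (fun i => if i = 0 then 1 else 0) 0
        else ∑ n ∈ range N, qn N v n * sv N v true as (fun i => if i = 0 then 1 else 0) n)
        (𝓝[≠] (vN N)) (𝓝 W) := by
    by_cases hpar : as.length % 2 = 0
    · simp only [if_pos hpar] at hst ⊢
      obtain ⟨K, hK, hc⟩ := hst
      refine ⟨_, ?_, hc 0 hN0⟩
      rw [WW_JJ N _ hLne, norm_mul, sgl_len] at *
      simp [Sd, hK]
    · simp only [if_neg hpar] at hst ⊢
      obtain ⟨K, hK, hc⟩ := hst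
      obtain ⟨Q, hQ, hq⟩ := qn_lim hN
      refine ⟨Q * (K * WW N (sgl true as) 0), ?_, ?_⟩
      · rw [WW_JJ N _ hLne, norm_mul, norm_mul, hQ]
        rw [sgl_len] at hK
        rw [← hK]
        ring
      · have h1 : Tendsto (fun v => ∑ n ∈ range N, qn N v n *
            sv N v true as (fun i => if i = 0 then 1 else 0) n) (𝓝[≠] (vN N))
            (𝓝 (∑ n ∈ range N, (if n = N - 1 then Q else 0) *
              (K * (-1) ^ (N - 1 - n) * WW N (sgl true as) (N - 1 - n)))) := by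
          refine tendsto_finsetSum _ fun n hn => ?_
          rw [mem_range] at hn
          exact (hq n hn).mul (hc n hn)
        have h2 : ∑ n ∈ range N, (if n = N - 1 then Q else 0) *
              (K * (-1) ^ (N - 1 - n) * WW N (sgl true as) (N - 1 - n)) =
            Q * (K * WW N (sgl true as) 0) := by
          rw [sum_eq_single (N - 1)]
          · simp
          · intro n _ hn
            rw [if_neg hn, zero_mul]
          · intro h
            exact absurd (mem_range.2 (by omega)) h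
        rw [h2] at h1
        exact h1
  obtain ⟨W, hW, hWt⟩ := hval
  -- the prefactor
  have hpre : ContinuousAt (fun v : ℂ => ((-1) ^ (N - 1) * v ^ (-((N : ℤ) ^ 2 - 1))) ^ (alt true as))
      (vN N) := by
    have h1 : ContinuousAt (fun v : ℂ => (-1) ^ (N - 1) * v ^ (-((N : ℤ) ^ 2 - 1))) (vN N) :=
      continuousAt_const.mul (Pool.Agent.H756R3.J.zpow_cont (vN_ne N) _)
    refine h1.zpow₀ _ (Or.inl ?_)
    exact mul_ne_zero (pow_ne_zero _ (by norm_num)) (zpow_ne_zero _ (vN_ne N))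
  have hpre1 : ‖((-1) ^ (N - 1) * (vN N) ^ (-((N : ℤ) ^ 2 - 1)) : ℂ) ^ (alt true as)‖ = 1 := by
    rw [norm_zpow, norm_mul, norm_pow, norm_neg, norm_one, one_pow, one_mul, norm_vN_zpow, one_zpow]
  have h3 : Tendsto (jn as N) (𝓝[{v : ℂ | ‖v‖ ≠ 1}] (vN N)) (𝓝 (jn as N (vN N))) :=
    (hC as N).tendsto.mono_left nhdsWithin_le_nhds
  have h4 := ((hpre.tendsto.mono_left (nhdsWithin_le_nhds (s := {v : ℂ | ‖v‖ ≠ 1}))).mul
    (hWt.mono_left hle))
  have hv0 : ∀ᶠ v in 𝓝[{v : ℂ | ‖v‖ ≠ 1}] (vN N), v ≠ 0 :=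
    nhdsWithin_le_nhds (isOpen_ne.mem_nhds (vN_ne N))
  have h5 : Tendsto (jn as N) (𝓝[{v : ℂ | ‖v‖ ≠ 1}] (vN N))
      (𝓝 (((-1) ^ (N - 1) * (vN N) ^ (-((N : ℤ) ^ 2 - 1)) : ℂ) ^ (alt true as) * W)) := by
    refine h4.congr' ?_
    filter_upwards [self_mem_nhdsWithin, hv0] with v hv hv'
    exact (hA as N v hN0 hv' hv).symm
  have h6 := tendsto_nhds_unique h3 h5
  rw [h6, norm_mul, hpre1, one_mul, hW]

end Pool.Agent.W346.HT
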