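import Pool.Agent.W711.HT.Rt
import Pool.Agent.W709.RT.Full

/-!
HT-RTCONT: continuity at the root of unity.
-/

set_option autoImplicit false

namespace Pool.Agent.W346.HT

open Filter Finset Topology Pool.Agent.H550R3.Jones Pool.Agent.W711.HT Pool.Agent.W709.RT
open scoped Real

variable {N : ℕ}

theorem tang'_cont {v : ℂ} (hv : v ≠ 0) (hb : ∀ k : ℕ, 0 < k → k < N → br v k ≠ 0)
    (w : List (ℕ × Bool)) (i j : Fin N) : ContinuousAt (fun v => tang' N w v i j) v := by
  have hkap : ∀ k : ℕ, ContinuousAt (fun v => kap N v k) v := by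
    intro k
    unfold kap
    rcases Nat.eq_zero_or_pos N with h0 | h0
    · exact absurd i.isLt (by omega)
    · refine (continuousAt_const.mul (Pool.Agent.H756R3.J.zpow_cont hv _)).mul
        (((Pool.Agent.H756R3.J.brf_cont hv _).mul (Pool.Agent.H756R3.J.brf_cont hv _)).div
          (Pool.Agent.H756R3.J.brf_cont hv _) (brf_ne' hb (by omega)))
  unfold tang'
  refine tendsto_finsetSum _ fun p _ => tendsto_finsetSum _ fun q _ => ?_
  refine ContinuousAt.mul (ContinuousAt.mul ?_ ?_) ?_
  · unfold Pool.Agent.W709.RT.cap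
    by_cases h : (p.1 : ℕ) + p.2 = N - 1
    · simp only [if_pos h]
      exact (hkap _).inv₀ (kap_ne hv hb p.2.isLt)
    · simp only [if_neg h]
      exact continuousAt_const
  · exact Pool.Agent.H756R3.J.rep_cont (fun v => crossP N v) (fun v => crossN N v) v
      (Pool.Agent.H756R3.J.crossP_cont hv hb) (Pool.Agent.H756R3.J.crossN_cont hv hb) 3 w _ _
  · unfold Pool.Agent.W709.RT.cup
    by_cases h : (q.1 : ℕ) + q.2 = N - 1
    · simp only [if_pos h]
      exact hkap _
    · simp only [if_neg h]
      exact continuousAt_const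

theorem cont : S_CONT := by
  intro as N
  have hv : vN N = EvenVol.v0 N := rfl
  rw [hv]
  unfold jn
  by_cases h : 0 < N
  · simp only [dif_pos h]
    by_cases hp : as.length % 2 = 0
    · simp only [if_pos hp]
      exact tang_cont (v0_ne N) br_v0 _ _ _
    · simp only [if_neg hp]
      exact tang'_cont (v0_ne N) br_v0 _ _ _
  · simp only [dif_neg h]
    exact continuousAt_const

end Pool.Agent.W346.HT
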