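import Pool.Agent.W711.HT.Rt
import Pool.Agent.W709.RT.Full

/-!
HT-RTASM, part 1: the path integral, expansion of `XX`.
-/

set_option autoImplicit false

namespace Pool.Agent.W346.HT

open Filter Finset Topology MeasureTheory Pool.Agent.W711.HT
open scoped Real

/-- integrability on the three segments -/
def IntP (h : ℝ) (f : ℂ → ℂ) : Prop :=
  IntervalIntegrable (fun y : ℝ => f (-π + y * Complex.I)) volume 0 h ∧
  IntervalIntegrable (fun x : ℝ => f (x + h * Complex.I)) volume (-π) π ∧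
  IntervalIntegrable (fun y : ℝ => f (π + y * Complex.I)) volume 0 h

lemma upp_sum {ι : Type} (s : Finset ι) (h : ℝ) (f : ι → ℂ → ℂ) (hf : ∀ i ∈ s, IntP h (f i)) :
    upp h (fun ψ => ∑ i ∈ s, f i ψ) = ∑ i ∈ s, upp h (f i) := by
  unfold upp
  rw [intervalIntegral.integral_finsetSum fun i hi => (hf i hi).1,
    intervalIntegral.integral_finsetSum fun i hi => (hf i hi).2.1,
    intervalIntegral.integral_finsetSum fun i hi => (hf i hi).2.2,
    sum_sub_distrib, sum_add_distrib, mul_sum, mul_sum]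

lemma upp_const_mul (h : ℝ) (c : ℂ) (f : ℂ → ℂ) : upp h (fun ψ => c * f ψ) = c * upp h f := by
  unfold upp
  rw [intervalIntegral.integral_const_mul, intervalIntegral.integral_const_mul,
    intervalIntegral.integral_const_mul]
  ring

lemma IntP.const_mul {h : ℝ} {f : ℂ → ℂ} (hf : IntP h f) (c : ℂ) : IntP h (fun ψ => c * f ψ) :=
  ⟨hf.1.const_mul c, hf.2.1.const_mul c, hf.2.2.const_mul c⟩

lemma upp_congr {h : ℝ} {f g : ℂ → ℂ} (h1 : ∀ y : ℝ, f (-π + y * Complex.I) = g (-π + y * Complex.I))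
    (h2 : ∀ x : ℝ, f (x + h * Complex.I) = g (x + h * Complex.I))
    (h3 : ∀ y : ℝ, f (π + y * Complex.I) = g (π + y * Complex.I)) : upp h f = upp h g := by
  unfold upp
  simp only [h1, h2, h3]

/-- the cosine does not vanish on the path -/
lemma cos_ne1 (N : ℕ) (y : ℝ) : Complex.cos (N * ((-π + y * Complex.I) + π) / 2) ≠ 0 := by
  intro h
  obtain ⟨k, hk⟩ := Complex.cos_eq_zero_iff.1 h
  have h1 := congrArg Complex.re hk
  have e1 : ((N : ℂ) * ((-π + y * Complex.I) + π) / 2) = ((N * y / 2 : ℝ) : ℂ) * Complex.I := by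
    push_cast
    ring
  have e2 : ((2 * (k : ℂ) + 1) * π / 2) = (((2 * (k : ℝ) + 1) * π / 2 : ℝ) : ℂ) := by
    push_cast
    ring
  rw [e1, e2, Complex.re_ofReal_mul, Complex.I_re, mul_zero, Complex.ofReal_re] at h1
  have h2 : (2 * (k : ℝ) + 1) = 0 := by
    have hp := Real.pi_pos
    by_contra hne
    exact (div_ne_zero (mul_ne_zero hne hp.ne') two_ne_zero) h1.symm
  have h3 : (2 * k + 1 : ℤ) = 0 := by exact_mod_cast h2
  omega

lemma cos_ne3 (N : ℕ) (y : ℝ) : Complex.cos (N * ((π + y * Complex.I) + π) / 2) ≠ 0 := by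
  intro h
  obtain ⟨k, hk⟩ := Complex.cos_eq_zero_iff.1 h
  have h1 := congrArg Complex.re hk
  have e1 : ((N : ℂ) * ((π + y * Complex.I) + π) / 2) = ((N * π : ℝ) : ℂ) +
      ((N * y / 2 : ℝ) : ℂ) * Complex.I := by
    push_cast
    ring
  have e2 : ((2 * (k : ℂ) + 1) * π / 2) = (((2 * (k : ℝ) + 1) * π / 2 : ℝ) : ℂ) := by
    push_cast
    ring
  rw [e1, e2, Complex.add_re, Complex.re_ofReal_mul, Complex.I_re, mul_zero, Complex.ofReal_re,
    Complex.ofReal_re, add_zero] at h1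
  have hp := Real.pi_pos
  have h2 : (2 * (k : ℝ) + 1) = 2 * N := by
    have h4 : π * (2 * (k : ℝ) + 1 - 2 * N) = 0 := by linear_combination (-2) * h1
    have := (mul_eq_zero.1 h4).resolve_left hp.ne'
    linarith
  have h3 : (2 * k + 1 : ℤ) = 2 * N := by exact_mod_cast h2
  omega

lemma cos_ne2 {N : ℕ} (hN : 0 < N) (x : ℝ) :
    Complex.cos (N * ((x + ((1 / N : ℝ) : ℂ) * Complex.I) + π) / 2) ≠ 0 := by
  intro h
  obtain ⟨k, hk⟩ := Complex.cos_eq_zero_iff.1 h
  have hN0 : (N : ℂ) ≠ 0 := by exact_mod_cast hN.ne'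
  have h1 := congrArg Complex.im hk
  have e1 : ((N : ℂ) * ((x + ((1 / N : ℝ) : ℂ) * Complex.I) + π) / 2) = ((N * (x + π) / 2 : ℝ) : ℂ) +
      ((1 / 2 : ℝ) : ℂ) * Complex.I := by
    push_cast
    field_simp
    ring
  have e2 : ((2 * (k : ℂ) + 1) * π / 2) = (((2 * (k : ℝ) + 1) * π / 2 : ℝ) : ℂ) := by
    push_cast
    ring
  rw [e1, e2, Complex.add_im, Complex.im_ofReal_mul, Complex.I_im, mul_one, Complex.ofReal_im,
    Complex.ofReal_im, zero_add] at h1
  norm_num at h1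

lemma kr_cont_of {N : ℕ} {f : ℝ → ℂ} (hf : Continuous f)
    (hc : ∀ t, Complex.cos (N * (f t + π) / 2) ≠ 0) : Continuous fun t => kr N (f t) := by
  unfold kr
  refine Continuous.div ?_ ?_ ?_
  · exact continuous_const.mul (Complex.continuous_sin.comp hf)
  · exact continuous_const.mul ((Complex.continuous_cos.comp
      ((continuous_const.mul (hf.add continuous_const)).div_const 2)).pow 2)
  · intro t
    exact mul_ne_zero (by norm_num) (pow_ne_zero 2 (hc t))

lemma IntP_kr {N : ℕ} (hN : 0 < N) {g : ℂ → ℂ} (hg : Continuous g) :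
    IntP (1 / N) (fun ψ => g ψ * kr N ψ) := by
  have c1 : Continuous fun y : ℝ => (-π + y * Complex.I : ℂ) := by fun_prop
  have c2 : Continuous fun x : ℝ => ((x : ℂ) + ((1 / N : ℝ) : ℂ) * Complex.I : ℂ) := by fun_prop
  have c3 : Continuous fun y : ℝ => (π + y * Complex.I : ℂ) := by fun_prop
  refine ⟨?_, ?_, ?_⟩
  · exact ((hg.comp c1).mul (kr_cont_of c1 (cos_ne1 N))).intervalIntegrable _ _
  · exact ((hg.comp c2).mul (kr_cont_of c2 (cos_ne2 hN))).intervalIntegrable _ _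
  · exact ((hg.comp c3).mul (kr_cont_of c3 (cos_ne3 N))).intervalIntegrable _ _

lemma Rp_diff (N d : ℕ) : Differentiable ℂ (Rp N d) := by
  unfold Rp
  intro z
  refine DifferentiableAt.fun_finsetProd fun j _ => ?_
  exact (((Complex.differentiable_cos z).const_mul 2).add_const _)

lemma Rp_cont (N d : ℕ) : Continuous (Rp N d) := (Rp_diff N d).continuous

lemma Ea_diff (a : ℤ) (N : ℕ) : Differentiable ℂ (Ea a N) := by
  unfold Ea
  fun_prop

lemma Ea_cont (a : ℤ) (N : ℕ) : Continuous (Ea a N) := (Ea_diff a N).continuous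

/-- the coefficients of `XX` -/
noncomputable def WW (N : ℕ) : List ℤ → ℕ → ℂ
  | [], d => if d = 0 then 1 else 0
  | a :: L, d => upp (1 / N) fun ψ => Ea a N ψ * XX L N ψ * Rp N d ψ * kr N ψ

lemma XX_exp {N : ℕ} (hN : 0 < N) (L : List ℤ) : Continuous (XX L N) ∧
    ∀ ψ, XX L N ψ = ∑ d ∈ range N, Rp N d ψ / (Sd N d : ℂ) ^ 4 * WW N L d := by
  induction L with
  | nil =>
    refine ⟨continuous_const, fun ψ => ?_⟩
    show (1 : ℂ) = _
    rw [sum_eq_single 0]
    · simp [Rp, Sd, WW]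
    · intro d _ hd
      simp [WW, hd]
    · intro h
      exact absurd (mem_range.2 hN) h
  | cons a L ih =>
    have hmain : ∀ ψ', XX (a :: L) N ψ' =
        ∑ d ∈ range N, Rp N d ψ' / (Sd N d : ℂ) ^ 4 * WW N (a :: L) d := by
      intro ψ'
      show upp (1 / N) (fun ψ => Ea a N ψ * XX L N ψ * Pool.Agent.W711.HT.ker N ψ ψ' * kr N ψ) = _
      have e1 : (fun ψ => Ea a N ψ * XX L N ψ * Pool.Agent.W711.HT.ker N ψ ψ' * kr N ψ) = fun ψ =>
          ∑ d ∈ range N, (Rp N d ψ' / (Sd N d : ℂ) ^ 4) *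
            (Ea a N ψ * XX L N ψ * Rp N d ψ * kr N ψ) := by
        funext ψ
        unfold Pool.Agent.W711.HT.ker
        rw [mul_sum, sum_mul]
        refine sum_congr rfl fun d _ => ?_
        ring
      rw [e1, upp_sum]
      · refine sum_congr rfl fun d _ => ?_
        rw [upp_const_mul]
        rfl
      · intro d _
        exact (IntP_kr hN (((Ea_cont a N).mul ih.1).mul (Rp_cont N d))).const_mul _
    refine ⟨?_, hmain⟩
    have e2 : XX (a :: L) N = fun ψ => ∑ d ∈ range N, Rp N d ψ / (Sd N d : ℂ) ^ 4 *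
        WW N (a :: L) d := funext hmain
    rw [e2]
    exact continuous_finsetSum _ fun d _ => ((Rp_cont N d).div_const _).mul continuous_const

/-- the integral of two polynomials -/
noncomputable def GG (N : ℕ) (a : ℤ) (m d : ℕ) : ℂ :=
  upp (1 / N) fun ψ => Ea a N ψ * Rp N m ψ * Rp N d ψ * kr N ψ

lemma GG_comm (N : ℕ) (a : ℤ) (m d : ℕ) : GG N a m d = GG N a d m := by
  unfold GG
  congr 1
  funext ψ
  ring

lemma WW_cons {N : ℕ} (hN : 0 < N) (a : ℤ) (L : List ℤ) (m : ℕ) :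
    WW N (a :: L) m = ∑ d ∈ range N, WW N L d / (Sd N d : ℂ) ^ 4 * GG N a m d := by
  show upp (1 / N) (fun ψ => Ea a N ψ * XX L N ψ * Rp N m ψ * kr N ψ) = _
  have e1 : (fun ψ => Ea a N ψ * XX L N ψ * Rp N m ψ * kr N ψ) = fun ψ =>
      ∑ d ∈ range N, (WW N L d / (Sd N d : ℂ) ^ 4) *
        (Ea a N ψ * Rp N m ψ * Rp N d ψ * kr N ψ) := by
    funext ψ
    rw [(XX_exp hN L).2, mul_sum, sum_mul, sum_mul]
    refine sum_congr rfl fun d _ => ?_
    ring
  rw [e1, upp_sum]
  · refine sum_congr rfl fun d _ => ?_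
    rw [upp_const_mul]
    rfl
  · intro d _
    exact (IntP_kr hN (((Ea_cont a N).mul (Rp_cont N m)).mul (Rp_cont N d))).const_mul _

/-- odd entire functions -/
lemma upp_odd {g : ℂ → ℂ} (hg : Differentiable ℂ g) (ho : ∀ z, g (-z) = -g z) (h : ℝ) :
    upp h g = 0 := by
  have h1 := Complex.integral_boundary_rect_eq_zero_of_differentiableOn g (-π : ℂ)
    (π + h * Complex.I) hg.differentiableOn
  have r1 : (-π : ℂ).re = -π := by simp
  have r2 : (-π : ℂ).im = 0 := by simp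
  have r3 : ((π : ℂ) + h * Complex.I).re = π := by simp
  have r4 : ((π : ℂ) + h * Complex.I).im = h := by simp
  rw [r1, r2, r3, r4] at h1
  have h2 : (∫ x : ℝ in (-π)..π, g (x + ((0 : ℝ) : ℂ) * Complex.I)) = 0 := by
    have h3 : (∫ x : ℝ in (-π)..π, g x) = 0 := by
      have h4 : (∫ x : ℝ in (-π)..π, g ((-x : ℝ) : ℂ)) = ∫ x : ℝ in (-π)..(- -π), g x :=
        intervalIntegral.integral_comp_neg (fun x : ℝ => g x)
      have h5 : (∫ x : ℝ in (-π)..π, g ((-x : ℝ) : ℂ)) = -∫ x : ℝ in (-π)..π, g x := by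
        rw [← intervalIntegral.integral_neg]
        refine intervalIntegral.integral_congr fun x _ => ?_
        show g ((-x : ℝ) : ℂ) = -g x
        rw [Complex.ofReal_neg, ho]
      rw [neg_neg, h5] at h4
      exact self_eq_neg.1 h4.symm
    simpa using h3
  rw [h2] at h1
  simp only [smul_eq_mul, Complex.ofReal_neg] at h1
  unfold upp
  linear_combination -h1

/-- the remaining factors -/
noncomputable def Qp (N n l : ℕ) (ψ : ℂ) : ℂ :=
  ∏ j ∈ Ico (n + 1) l, (2 * Complex.cos ψ + 2 * (Real.cos (phi N j) : ℂ))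

lemma Rp_RR (N d : ℕ) (ψ : ℂ) : Rp N d ψ = (-1) ^ d * Pool.Agent.W709.VC.RR N d ψ := by
  unfold Rp Pool.Agent.W709.VC.RR
  have : ((-1 : ℂ)) ^ d = ∏ _j ∈ range d, (-1 : ℂ) := by simp
  rw [this, ← prod_mul_distrib]
  refine prod_congr rfl fun j _ => ?_
  show 2 * Complex.cos ψ + 2 * (Real.cos (phi N j) : ℂ) =
    -1 * (-2 * Complex.cos ψ - 2 * (Real.cos (phi N j) : ℂ))
  ring

lemma Rp_mul {N n l : ℕ} (hn : n < N) (hl : n < l) (ψ : ℂ) :
    Rp N (N - 1 - n) ψ * Rp N l ψ =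
      (-1) ^ N * (4 * Complex.cos (N * (ψ + π) / 2) ^ 2) * Qp N n l ψ := by
  have hN : 0 < N := by omega
  have h1 : Rp N l ψ = Rp N (n + 1) ψ * Qp N n l ψ := by
    unfold Rp Qp
    exact (prod_range_mul_prod_Ico _ (by omega)).symm
  have h2 := Pool.Agent.W709.VC.RR_split hn ψ
  rw [Pool.Agent.W709.VC.prod_phi hN] at h2
  rw [h1, Rp_RR N (N - 1 - n), Rp_RR N (n + 1), h2]
  have h3 : ((-1 : ℂ)) ^ N = (-1) ^ (n + 1) * (-1) ^ (N - 1 - n) := by
    rw [← pow_add]
    congr 1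
    omega
  rw [h3]
  ring

lemma Qp_diff (N n l : ℕ) : Differentiable ℂ (Qp N n l) := by
  unfold Qp
  intro z
  refine DifferentiableAt.fun_finsetProd fun j _ => ?_
  exact (((Complex.differentiable_cos z).const_mul 2).add_const _)

/-- the integrals with too many factors vanish -/
lemma GG_zero {N n l : ℕ} (hn : n < N) (hl : n < l) (a : ℤ) : GG N a (N - 1 - n) l = 0 := by
  have hN : 0 < N := by omega
  have key : ∀ ψ : ℂ, Complex.cos (N * (ψ + π) / 2) ≠ 0 →
      Ea a N ψ * Rp N (N - 1 - n) ψ * Rp N l ψ * kr N ψ =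
        (-1) ^ N * (Ea a N ψ * Qp N n l ψ * (2 * Complex.sin ψ)) := by
    intro ψ hψ
    unfold kr
    calc Ea a N ψ * Rp N (N - 1 - n) ψ * Rp N l ψ *
          (2 * Complex.sin ψ / (4 * Complex.cos (N * (ψ + π) / 2) ^ 2))
        = Ea a N ψ * (Rp N (N - 1 - n) ψ * Rp N l ψ) *
          (2 * Complex.sin ψ / (4 * Complex.cos (N * (ψ + π) / 2) ^ 2)) := by ring
      _ = _ := by
        rw [Rp_mul hn hl]
        field_simp
  unfold GG
  rw [upp_congr (g := fun ψ => (-1) ^ N * (Ea a N ψ * Qp N n l ψ * (2 * Complex.sin ψ)))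
    (fun y => key _ (cos_ne1 N y)) (fun x => key _ (cos_ne2 hN x)) (fun y => key _ (cos_ne3 N y)),
    upp_const_mul, upp_odd, mul_zero]
  · exact ((Ea_diff a N).mul (Qp_diff N n l)).mul (Complex.differentiable_sin.const_mul 2)
  · intro z
    have e1 : Ea a N (-z) = Ea a N z := by
      unfold Ea
      rw [neg_sq]
    have e2 : Qp N n l (-z) = Qp N n l z := by
      unfold Qp
      simp only [Complex.cos_neg]
    show Ea a N (-z) * Qp N n l (-z) * (2 * Complex.sin (-z)) = -(Ea a N z * Qp N n l z * (2 * Complex.sin z))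
    rw [e1, e2, Complex.sin_neg]
    ring

end Pool.Agent.W346.HT
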